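import Mathlib

/-!
# Coefficients of the restriction of a form to a curve: bounds for one absolute value (job 3616)
-/

set_option autoImplicit false

namespace Pool.Agent.Y434.U557

open Finset Polynomial

variable {K : Type} [Field K]

/-- coefficients bounded by `b` -/
def Bd (a : AbsoluteValue K ℝ) (b : ℝ) (g : K[X]) : Prop := ∀ k, a (g.coeff k) ≤ b

theorem one_bd (a : AbsoluteValue K ℝ) : Bd a 1 (1 : K[X]) := by
  intro k
  rw [Polynomial.coeff_one]
  split_ifs <;> simp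

theorem na_sum (a : AbsoluteValue K ℝ) (h : ∀ x y, a (x + y) ≤ max (a x) (a y)) {ι : Type*}
    (s : Finset ι) (g : ι → K) (B : ℝ) (hB : 0 ≤ B) (hg : ∀ i ∈ s, a (g i) ≤ B) :
    a (∑ i ∈ s, g i) ≤ B := by
  classical
  induction s using Finset.induction_on with
  | empty => simpa using hB
  | insert i s hi ih =>
    rw [Finset.sum_insert hi]
    exact (h _ _).trans (max_le (hg i (mem_insert_self _ _))
      (ih fun j hj => hg j (mem_insert_of_mem hj)))

theorem na_mul (a : AbsoluteValue K ℝ) (h : ∀ x y, a (x + y) ≤ max (a x) (a y)) (g f : K[X])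
    (b b' : ℝ) (hb : 0 ≤ b) (hb' : 0 ≤ b') (hg : Bd a b g) (hf : Bd a b' f) :
    Bd a (b * (1 * b')) (g * f) := by
  intro k
  rw [Polynomial.coeff_mul, one_mul]
  refine na_sum a h _ _ _ (mul_nonneg hb hb') fun p _ => ?_
  rw [map_mul]
  exact mul_le_mul (hg _) (hf _) (a.nonneg _) hb

theorem ar_mul (a : AbsoluteValue K ℝ) (m : ℕ) (g f : K[X]) (hd : f.natDegree ≤ m)
    (b b' : ℝ) (hb : 0 ≤ b) (hb' : 0 ≤ b') (hg : Bd a b g) (hf : Bd a b' f) :
    Bd a (b * (((m : ℝ) + 1) * b')) (g * f) := by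
  intro k
  rw [Polynomial.coeff_mul]
  have h1 : ∑ p ∈ HasAntidiagonal.antidiagonal k, g.coeff p.1 * f.coeff p.2 =
      ∑ p ∈ (HasAntidiagonal.antidiagonal k).filter (fun p => p.2 ≤ m), g.coeff p.1 * f.coeff p.2 := by
    rw [Finset.sum_filter]
    refine Finset.sum_congr rfl fun p _ => ?_
    split_ifs with h
    · rfl
    · have h3 : f.coeff p.2 = 0 := Polynomial.coeff_eq_zero_of_natDegree_lt (by omega)
      rw [h3, mul_zero]
  rw [h1]
  have h2 : ((HasAntidiagonal.antidiagonal k).filter (fun p : ℕ × ℕ => p.2 ≤ m)).card ≤ m + 1 := by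
    rw [← Finset.card_range (m + 1)]
    refine Finset.card_le_card_of_injOn (fun p => p.2) ?_ ?_
    · intro p hp
      simp only [Finset.coe_filter, Finset.HasAntidiagonal.mem_antidiagonal, Set.mem_ofPred_eq] at hp
      simp only [Finset.coe_range, Set.mem_Iio]
      omega
    · intro p hp r hr hpr
      simp only [Finset.coe_filter, Finset.HasAntidiagonal.mem_antidiagonal, Set.mem_ofPred_eq] at hp hr hpr
      refine Prod.ext ?_ hpr
      omega
  calc a (∑ p ∈ (HasAntidiagonal.antidiagonal k).filter (fun p => p.2 ≤ m), g.coeff p.1 * f.coeff p.2)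
      ≤ ∑ p ∈ (HasAntidiagonal.antidiagonal k).filter (fun p => p.2 ≤ m), a (g.coeff p.1 * f.coeff p.2) :=
        a.sum_le _ _
    _ ≤ ∑ p ∈ (HasAntidiagonal.antidiagonal k).filter (fun p : ℕ × ℕ => p.2 ≤ m), b * b' := by
        refine Finset.sum_le_sum fun p _ => ?_
        rw [map_mul]
        exact mul_le_mul (hg _) (hf _) (a.nonneg _) hb
    _ = ((HasAntidiagonal.antidiagonal k).filter (fun p : ℕ × ℕ => p.2 ≤ m)).card * (b * b') := by
        rw [Finset.sum_const, nsmul_eq_mul]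
    _ ≤ ((m : ℝ) + 1) * (b * b') := by
        refine mul_le_mul_of_nonneg_right ?_ (mul_nonneg hb hb')
        exact_mod_cast h2
    _ = b * (((m : ℝ) + 1) * b') := by ring

/-- powers and products -/
theorem prod_bd (a : AbsoluteValue K ℝ) (m : ℕ) (C : ℝ) (hC : 0 ≤ C)
    (hmul : ∀ (g f : K[X]) (b b' : ℝ), f.natDegree ≤ m → 0 ≤ b → 0 ≤ b' → Bd a b g → Bd a b' f →
      Bd a (b * (C * b')) (g * f)) {n : ℕ} (f : Fin n → K[X]) (hd : ∀ i, (f i).natDegree ≤ m)
    (b : ℝ) (hb : 0 ≤ b) (hf : ∀ i, Bd a b (f i)) (s : Fin n → ℕ) (T : Finset (Fin n)) :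
    Bd a ((C * b) ^ ∑ i ∈ T, s i) (∏ i ∈ T, f i ^ s i) := by
  have hCb : 0 ≤ C * b := mul_nonneg hC hb
  have hpow : ∀ (g : K[X]) (c : ℝ) (i : Fin n) (t : ℕ), 0 ≤ c → Bd a c g →
      Bd a (c * (C * b) ^ t) (g * f i ^ t) := by
    intro g c i t hc hg
    induction t with
    | zero => simpa using hg
    | succ t ih =>
      have h1 := hmul (g * f i ^ t) (f i) (c * (C * b) ^ t) b (hd i)
        (mul_nonneg hc (pow_nonneg hCb _)) hb ih (hf i)
      have e1 : g * f i ^ (t + 1) = g * f i ^ t * f i := by rw [pow_succ]; ring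
      have e2 : c * (C * b) ^ (t + 1) = c * (C * b) ^ t * (C * b) := by rw [pow_succ]; ring
      rw [e1, e2]
      exact h1
  classical
  induction T using Finset.induction_on with
  | empty => simpa using one_bd a
  | insert i T hi ih =>
    rw [Finset.sum_insert hi, Finset.prod_insert hi, mul_comm (f i ^ s i), add_comm, pow_add]
    exact hpow _ _ i (s i) (pow_nonneg hCb _) ih

theorem supp_sum {n : ℕ} (F : MvPolynomial (Fin n) K) (e : ℕ) (hF : F.IsHomogeneous e)
    (s : Fin n →₀ ℕ) (hs : s ∈ F.support) : ∑ i, s i = e := by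
  have h1 := hF (MvPolynomial.mem_support_iff.1 hs)
  rw [← h1, Finsupp.weight_apply, Finsupp.sum_fintype]
  · simp
  · intro i
    simp

theorem supp_card {n : ℕ} (F : MvPolynomial (Fin n) K) (e : ℕ) (hF : F.IsHomogeneous e) :
    F.support.card ≤ (e + 1) ^ n := by
  have h0 : ∀ s ∈ F.support, ∀ i, s i < e + 1 := by
    intro s hs i
    have h1 := supp_sum F e hF s hs
    have h2 : s i ≤ ∑ i, s i := Finset.single_le_sum (fun _ _ => Nat.zero_le _) (mem_univ i)
    omega
  have h3 : (e + 1) ^ n = (Fintype.piFinset fun _ : Fin n => range (e + 1)).card := by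
    rw [Fintype.card_piFinset]
    simp
  rw [h3]
  refine Finset.card_le_card_of_injOn (fun s => (s : Fin n → ℕ)) ?_ ?_
  · intro s hs
    simp only [Finset.mem_coe, Fintype.mem_piFinset, mem_range]
    exact h0 s hs
  · intro s _ t _ h
    exact DFunLike.coe_injective h

theorem aeval_eq {n : ℕ} (f : Fin n → K[X]) (F : MvPolynomial (Fin n) K) (k : ℕ) :
    (MvPolynomial.aeval f F).coeff k =
      ∑ s ∈ F.support, F.coeff s * (∏ i, f i ^ s i).coeff k := by
  rw [MvPolynomial.aeval_def, MvPolynomial.eval₂_eq', Polynomial.finsetSum_coeff]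
  refine Finset.sum_congr rfl fun s _ => ?_
  rw [Polynomial.algebraMap_apply, Algebra.algebraMap_self, RingHom.id_apply, Polynomial.coeff_C_mul]

theorem na_comp (a : AbsoluteValue K ℝ) (h : ∀ x y, a (x + y) ≤ max (a x) (a y)) {n : ℕ}
    (f : Fin n → K[X]) (F : MvPolynomial (Fin n) K) (e : ℕ) (hF : F.IsHomogeneous e) (b c : ℝ)
    (hb : 0 ≤ b) (hc : 0 ≤ c) (hf : ∀ i, Bd a b (f i)) (hcF : ∀ s ∈ F.support, a (F.coeff s) ≤ c)
    (k : ℕ) : a ((MvPolynomial.aeval f F).coeff k) ≤ c * b ^ e := by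
  rw [aeval_eq]
  refine na_sum a h _ _ _ (mul_nonneg hc (pow_nonneg hb _)) fun s hs => ?_
  rw [map_mul]
  have h1 := prod_bd a (Finset.univ.sup fun i => (f i).natDegree) 1 zero_le_one
    (fun g f b b' _ hb hb' hg hf => na_mul a h g f b b' hb hb' hg hf) f
    (fun i => Finset.le_sup (f := fun i => (f i).natDegree) (mem_univ i)) b hb hf s univ k
  rw [supp_sum F e hF s hs, one_mul] at h1
  exact mul_le_mul (hcF s hs) h1 (a.nonneg _) hc

theorem ar_comp (a : AbsoluteValue K ℝ) {n : ℕ} (m : ℕ)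
    (f : Fin n → K[X]) (hd : ∀ i, (f i).natDegree ≤ m) (F : MvPolynomial (Fin n) K) (e : ℕ)
    (hF : F.IsHomogeneous e) (b c : ℝ)
    (hb : 0 ≤ b) (hc : 0 ≤ c) (hf : ∀ i, Bd a b (f i)) (hcF : ∀ s ∈ F.support, a (F.coeff s) ≤ c)
    (k : ℕ) : a ((MvPolynomial.aeval f F).coeff k) ≤
      (((e : ℝ) + 1) ^ n * ((m : ℝ) + 1) ^ e) * (c * b ^ e) := by
  rw [aeval_eq]
  have h0 : ∀ s ∈ F.support, a (F.coeff s * (∏ i, f i ^ s i).coeff k) ≤
      c * (((m : ℝ) + 1) * b) ^ e := by
    intro s hs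
    rw [map_mul]
    have h1 := prod_bd a m ((m : ℝ) + 1) (by positivity)
      (fun g f b b' hd hb hb' hg hf => ar_mul a m g f hd b b' hb hb' hg hf) f hd b hb hf s univ k
    rw [supp_sum F e hF s hs] at h1
    exact mul_le_mul (hcF s hs) h1 (a.nonneg _) hc
  calc a (∑ s ∈ F.support, F.coeff s * (∏ i, f i ^ s i).coeff k)
      ≤ ∑ s ∈ F.support, a (F.coeff s * (∏ i, f i ^ s i).coeff k) := a.sum_le _ _
    _ ≤ ∑ s ∈ F.support, c * (((m : ℝ) + 1) * b) ^ e := Finset.sum_le_sum h0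
    _ = F.support.card * (c * (((m : ℝ) + 1) * b) ^ e) := by
        rw [Finset.sum_const, nsmul_eq_mul]
    _ ≤ ((e : ℝ) + 1) ^ n * (c * (((m : ℝ) + 1) * b) ^ e) := by
        refine mul_le_mul_of_nonneg_right ?_ (by positivity)
        exact_mod_cast supp_card F e hF
    _ = (((e : ℝ) + 1) ^ n * ((m : ℝ) + 1) ^ e) * (c * b ^ e) := by
        rw [mul_pow]
        ring

end Pool.Agent.Y434.U557
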