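import Pool.Agent.Y557.U.Stm
import Pool.Agent.Y434.U557.Abs

/-!
# Coefficients of the restriction of a form to a curve (job 3616)
-/

set_option autoImplicit false

namespace Pool.Agent.Y434.U557

open NumberField IsDedekindDomain Finset Polynomial
open Pool.Agent.H691R3 Pool.Agent.TH876.Loc
open Pool.Agent.Y557.U

theorem comp_holds (K : Type) [Field K] [NumberField K] : S_COMP K := by
  intro n m e
  refine ⟨((e : ℝ) + 1) ^ n * ((m : ℝ) + 1) ^ e, ?_, ?_⟩
  · have h1 : (1 : ℝ) ≤ (e : ℝ) + 1 := by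
      have := Nat.cast_nonneg (α := ℝ) e
      linarith
    have h2 : (1 : ℝ) ≤ (m : ℝ) + 1 := by
      have := Nat.cast_nonneg (α := ℝ) m
      linarith
    exact one_le_mul_of_one_le_of_one_le (one_le_pow₀ h1) (one_le_pow₀ h2)
  · intro f F hd hF
    have hb : ∀ a : AbsoluteValue K ℝ, 0 ≤ ⨆ p : Fin n × Fin (m + 1), a (cf f m p) := fun a =>
      Real.iSup_nonneg fun p => a.nonneg _
    have hc : ∀ a : AbsoluteValue K ℝ, 0 ≤ ⨆ s, a (cF F s) := fun a =>
      Real.iSup_nonneg fun p => a.nonneg _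
    have hbd : ∀ (a : AbsoluteValue K ℝ) (i : Fin n),
        Bd a (⨆ p : Fin n × Fin (m + 1), a (cf f m p)) (f i) := by
      intro a i k
      by_cases hk : k ≤ m
      · exact le_ciSup (f := fun p : Fin n × Fin (m + 1) => a (cf f m p))
          (Set.finite_range _).bddAbove (i, ⟨k, by omega⟩)
      · have h3 : (f i).coeff k = 0 := Polynomial.coeff_eq_zero_of_natDegree_lt (by
          have := hd i
          omega)
        rw [h3, map_zero]
        exact hb a
    have hcf : ∀ (a : AbsoluteValue K ℝ), ∀ s ∈ F.support, a (F.coeff s) ≤ ⨆ s, a (cF F s) := by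
      intro a s hs
      exact le_ciSup (f := fun s => a (cF F s)) (Set.finite_range _).bddAbove ⟨s, hs⟩
    refine ⟨fun v k => ?_, fun w k => ?_⟩
    · exact na_comp (fv v) (fv_na v) f F e hF _ _ (hb (fv v)) (hc (fv v)) (hbd (fv v))
        (hcf (fv v)) k
    · exact ar_comp w.1 m f hd F e hF _ _ (hb w.1) (hc w.1) (hbd w.1) (hcf w.1) k

end Pool.Agent.Y434.U557
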